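import Pool.Agent.Q60.D3H.Last

/-!
# The noncommutative Hodge conjecture: definitions
-/

set_option autoImplicit false

namespace Pool.Agent.Q60.NH

open Module Pool.Agent.H204R3.CM
open Pool.Agent.W547.KB (CMPair)
open Pool.Agent.W547.LN (SameType)
open Pool.Agent.Q60.D3 (AV IsSimple IsIsogenousToProd)
open Pool.Agent.Q60.D3E (HasCMType)
open Pool.Agent.Q60.D3H (KMult NonDegPrim SepT)
open Pool.Agent.Q180.WT (Gen)
open Pool.Agent.Q180.UW (IsUnitary)
open Pool.Agent.Q180.UV (IsReal IsReal2 IsBal IsLefR IsLefU)

/-- The abelian variety `X` is isogenous to a product of abelian varieties `A i`, in any number and with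
any multiplicities, each of which is simple of dimension at most three; or simple of prime dimension,
with or without complex multiplication, such that the larger one of the two multiplicities of each
imaginary quadratic field in the endomorphism algebra is two or three; or of unitary type with the
multiplicities between one and two or three; or a fourfold of Weil type with the smallest
endomorphism algebra; or of real type, of odd relative dimension or of relative dimension two; or of CM
type of any dimension, with a nondegenerate primitive or a separated CM type; or of real or unitary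
type with the codimension two condition. Two factors of CM type with the same Galois closure, one of
them of dimension larger than three, have isomorphic CM types; for three factors of CM type of dimension
at most three with the same Galois closure this holds for two of them, or the CM field is Galois. -/
def IsGood (X : AV) : Prop :=
  ∃ (ι : Type) (A : ι → AV), Finite ι ∧ IsIsogenousToProd X A ∧
    (∀ i, (IsSimple (A i) ∧ finrank ℂ (A i).T ≤ 3) ∨
      (IsSimple (A i) ∧ (finrank ℂ (A i).T).Prime ∧ ∀ M, KMult (A i) M → M = 2 ∨ M = 3) ∨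
      IsUnitary (A i) 2 2 ∨ IsUnitary (A i) 2 3 ∨ IsBal (A i) 2 ∨
      IsReal (A i) ∨ IsReal2 (A i) ∨
      (∃ B, HasCMType (A i) B ∧ (NonDegPrim B ∧ (∀ M, KMult (A i) M → M = 2 ∨ M = 3) ∨ SepT B)) ∨
      IsLefR (A i) ∨ IsLefU (A i) 2 2 ∨ IsLefU (A i) 2 3) ∧
    (∀ i k (B B' : CMPair), 3 < finrank ℂ (A i).T → HasCMType (A i) B →
      HasCMType (A k) B' → IntermediateField.normalClosure ℚ B.E ℂ =
        IntermediateField.normalClosure ℚ B'.E ℂ → SameType B B') ∧
    ∀ i k l (B B' B'' : CMPair), finrank ℂ (A i).T ≤ 3 → finrank ℂ (A k).T ≤ 3 →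
      finrank ℂ (A l).T ≤ 3 → HasCMType (A i) B → HasCMType (A k) B' →
      HasCMType (A l) B'' →
      IntermediateField.normalClosure ℚ B.E ℂ = IntermediateField.normalClosure ℚ B'.E ℂ →
      IntermediateField.normalClosure ℚ B'.E ℂ = IntermediateField.normalClosure ℚ B''.E ℂ →
      IsGalois ℚ B.E ∨ SameType B B' ∨ SameType B' B'' ∨ SameType B B''

/-- The `ℂ`-linear admissible subcategories `C` of the categories `D^perf(Z)` of smooth proper complex
varieties `Z` (for instance `C = D^perf(Z)`), with `K C`, the rational topological `K`-theory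
`K^top_0(C) ⊗ ℚ` (which is `⊕ H^{2k}(Z, ℚ)(k)` for `D^perf(Z)`, by the Chern character), its Hodge
classes `Hodge C`, the image `Alg C` of `K_0(C) ⊗ ℚ`, and the maps `act c`, from `K C` to `K D`, given by
the kernels `c`, the objects of `C^op ⊗ D` and their rational combinations. For an abelian variety `X`,
`perf X` is `D^perf(X)`, and `cls X m f` is the cohomology class of the alternating form `f` of
degree `2 m` on the rational homology of `X`. -/
structure NCData where
  /-- the admissible subcategories -/
  Cat : Type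
  /-- the rational topological `K`-theory -/
  K : Cat → Type
  [addK : ∀ C, AddCommGroup (K C)]
  [modK : ∀ C, Module ℚ (K C)]
  /-- the Hodge classes -/
  Hodge : ∀ C, Submodule ℚ (K C)
  /-- the image of `K_0(C) ⊗ ℚ` -/
  Alg : ∀ C, Submodule ℚ (K C)
  /-- the kernels -/
  Cor : Cat → Cat → Type
  /-- the action of the kernels -/
  act : ∀ {C D}, Cor C D → K C →ₗ[ℚ] K D
  /-- the categories `D^perf(X)` of the abelian varieties -/
  perf : AV → Cat
  /-- the cohomology class of an alternating form of even degree on the homology -/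
  cls : ∀ (X : AV) (m : ℕ), (X.H [⋀^Fin (2 * m)]→ₗ[ℚ] ℚ) →ₗ[ℚ] K (perf X)

attribute [instance] NCData.addK NCData.modK

variable (T : NCData)

/-- The noncommutative Hodge conjecture for an admissible subcategory: `K_0(C) ⊗ ℚ` maps onto the
rational Hodge classes of `C`. For `C = D^perf(Z)` this is the Hodge conjecture for `Z`. -/
def NCData.NCHodge (C : T.Cat) : Prop := T.Hodge C ≤ T.Alg C

/-- `C` is a retract of `D`: there are kernels from `C` to `D` and from `D` to `C` whose composition is
the identity on the rational topological `K`-theory of `C`; for instance `C` is an admissible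
subcategory of `D`, the kernels are the inclusion and its adjoint. -/
def NCData.IsRetract (C D : T.Cat) : Prop :=
  ∃ (i : T.Cor C D) (r : T.Cor D C), ∀ x : T.K C, T.act r (T.act i x) = x

/-- The noncommutative motive of `C` is, up to homological equivalence, a direct summand of a sum of
motives of good abelian varieties: there are good abelian varieties `X j` and kernels from `C` to
`D^perf(X j)` and from `D^perf(X j)` to `C` whose compositions have the sum one on `K C`. -/
def NCData.FromGood (C : T.Cat) : Prop :=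
  ∃ (n : ℕ) (X : Fin n → AV) (α : ∀ j, T.Cor C (T.perf (X j))) (β : ∀ j, T.Cor (T.perf (X j)) C),
    (∀ j, IsGood (X j)) ∧ ∀ x : T.K C, ∑ j, T.act (β j) (T.act (α j) x) = x

/-- The known facts: kernels respect Hodge classes and the images of `K_0`; kernels can be
composed, the diagonal bimodule acts as the identity; the Hodge classes on an abelian variety are sums of Hodge classes of the degrees `2 m`, given
by alternating forms; the classes generated by divisors and by the Weil classes of imaginary quadratic
fields on abelian fourfolds, and on abelian sixfolds with a stable elliptic curve, are algebraic, that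
is, they lie in the image of `K_0` (Lefschetz, Markman). -/
structure NCData.Facts : Prop where
  act_hodge : ∀ {C D} (c : T.Cor C D), ∀ x ∈ T.Hodge C, T.act c x ∈ T.Hodge D
  act_alg : ∀ {C D} (c : T.Cor C D), ∀ x ∈ T.Alg C, T.act c x ∈ T.Alg D
  ident : ∀ C, ∃ i : T.Cor C C, ∀ x, T.act i x = x
  comp : ∀ {C D E} (c : T.Cor C D) (d : T.Cor D E), ∃ e : T.Cor C E,
    ∀ x, T.act e x = T.act d (T.act c x)
  forms : ∀ (X : AV), ∀ x ∈ T.Hodge (T.perf X), ∃ (N : ℕ)
    (f : ∀ m, X.H [⋀^Fin (2 * m)]→ₗ[ℚ] ℚ),
    (∀ m, IsHodge X.per (f m)) ∧ x = ∑ m ∈ Finset.range N, T.cls X m (f m)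
  gen_alg : ∀ (X : AV) (m : ℕ) (f : X.H [⋀^Fin (2 * m)]→ₗ[ℚ] ℚ),
    Gen {2, 3} X (Fin (2 * m)) f → T.cls X m f ∈ T.Alg (T.perf X)

/-- The Hodge classes on a good abelian variety are generated by divisors and Weil classes. -/
theorem IsGood.gen {X : AV} (h : IsGood X) {κ : Type} [Finite κ] (f : X.H [⋀^κ]→ₗ[ℚ] ℚ) :
    IsHodge X.per f ↔ Gen {2, 3} X κ f := by
  obtain ⟨ι, A, hι, hX, hA, h2, h3⟩ := h
  refine Pool.Agent.Q60.D3H.last (𝒟 := {2, 3}) (Or.inl rfl) hX (fun i => ?_) h2 h3 f
  have e2 : (2 : ℕ) ∈ ({2, 3} : Set ℕ) := Or.inl rfl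
  have e3 : (3 : ℕ) ∈ ({2, 3} : Set ℕ) := Or.inr rfl
  rcases hA i with h | h | h | h | h | h | h | ⟨B, h, h'⟩ | h | h | h
  · exact Or.inl h
  · exact Or.inr (Or.inl h)
  · exact Or.inr (Or.inr (Or.inl ⟨2, e2, h⟩))
  · exact Or.inr (Or.inr (Or.inl ⟨3, e3, h⟩))
  · exact Or.inr (Or.inr (Or.inr (Or.inl ⟨e3, h⟩)))
  · exact Or.inr (Or.inr (Or.inr (Or.inr (Or.inl h))))
  · exact Or.inr (Or.inr (Or.inr (Or.inr (Or.inr (Or.inl h)))))
  · exact Or.inr (Or.inr (Or.inr (Or.inr (Or.inr (Or.inr (Or.inl ⟨B, h, h'⟩))))))
  · exact Or.inr (Or.inr (Or.inr (Or.inr (Or.inr (Or.inr (Or.inr (Or.inl h)))))))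
  · exact Or.inr (Or.inr (Or.inr (Or.inr (Or.inr (Or.inr (Or.inr (Or.inr ⟨2, e2, h⟩)))))))
  · exact Or.inr (Or.inr (Or.inr (Or.inr (Or.inr (Or.inr (Or.inr (Or.inr ⟨3, e3, h⟩)))))))

variable {T}

theorem NCData.Facts.nc_perf (h : T.Facts) {X : AV} (hX : IsGood X) : T.NCHodge (T.perf X) := by
  intro x hx
  obtain ⟨N, f, hf, rfl⟩ := h.forms X x hx
  exact Submodule.sum_mem _ fun m _ => h.gen_alg X m _ ((hX.gen (f m)).1 (hf m))

theorem NCData.Facts.nc (h : T.Facts) {C : T.Cat} (hC : T.FromGood C) : T.NCHodge C := by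
  obtain ⟨n, X, α, β, hX, hs⟩ := hC
  intro x hx
  rw [← hs x]
  exact Submodule.sum_mem _ fun j _ => h.act_alg _ _ (h.nc_perf (hX j) (h.act_hodge _ _ hx))

theorem NCData.Facts.perf (h : T.Facts) {X : AV} (hX : IsGood X) : T.FromGood (T.perf X) := by
  obtain ⟨i, hi⟩ := h.ident (T.perf X)
  exact ⟨1, fun _ => X, fun _ => i, fun _ => i, fun _ => hX, fun x => by simp [hi]⟩

theorem NCData.Facts.retract (h : T.Facts) {C D : T.Cat} (hCD : T.IsRetract C D)
    (hD : T.FromGood D) : T.FromGood C := by
  obtain ⟨i, r, hir⟩ := hCD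
  obtain ⟨n, X, α, β, hX, hs⟩ := hD
  choose a ha using fun j => h.comp i (α j)
  choose b hb using fun j => h.comp (β j) r
  refine ⟨n, X, a, b, hX, fun x => ?_⟩
  calc ∑ j, T.act (b j) (T.act (a j) x)
      = ∑ j, T.act r (T.act (β j) (T.act (α j) (T.act i x))) := by
        refine Finset.sum_congr rfl fun j _ => ?_
        rw [ha, hb]
    _ = T.act r (∑ j, T.act (β j) (T.act (α j) (T.act i x))) := (map_sum _ _ _).symm
    _ = x := by rw [hs, hir]

end Pool.Agent.Q60.NH
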